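import Mathlib.Combinatorics.SimpleGraph.Triangle.Removal
import Mathlib.Combinatorics.SimpleGraph.Triangle.Tripartite
import Mathlib.Analysis.SpecialFunctions.Pow.Real
import Mathlib.Analysis.SpecialFunctions.Pow.Asymptotics
import Mathlib.LinearAlgebra.Dimension.Constructions
import Mathlib.LinearAlgebra.Dimension.Finite
import Mathlib.LinearAlgebra.FiniteDimensional.Basic
import Mathlib.Data.ZMod.Basic
import Mathlib.Data.Rat.Cast.CharZero
import Mathlib.Analysis.SpecificLimits.Basic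
import Mathlib.Algebra.Field.ZMod

/-!
# A Boolean predicate whose non-redundancy lies between linear and quadratic

We exhibit a Boolean predicate `P` of arity 8 with seven satisfying tuples such that
`NRD(P, n)` is at least a constant times `n ^ (3/2)` and is `o(n ^ 2)`.

The satisfying tuples are the images of the seven nonzero triples `(a, b, g)` of bits under eight
Boolean functions, each depending on only two of the three bits.  The lower bound comes from the
instance whose clauses are the points of a cube `[q]^3` and whose variables are the points of its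
two-dimensional projections.  For the upper bound, every clause whose witness violates one of
three linear relations is handled by linear independence; the remaining clauses have as witness
the tuple of the triple `(0, 0, 0)`.  For them three of the coordinates define a tripartite graph
with edge-disjoint triangles, one for each clause, and a label chase shows that there are at most
`2 n ^ 2` further triangles.  The triangle removal lemma finishes the proof.
-/

namespace Pool.Agent.Results.MP_7c0615_lc.BetweenLinearAndQuadratic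

open Finset

/-- The instance `C` (a finite set of clauses, each an `r`-tuple of variables from `Fin n`) of
`CSP(P)` is non-redundant: every clause `c` has an assignment that satisfies all other clauses
but not `c`. -/
def NonRedundant {r n : ℕ} (P : Set (Fin r → Bool)) (C : Finset (Fin r → Fin n)) : Prop :=
  ∀ c ∈ C, ∃ ψ : Fin n → Bool,
    (∀ c' ∈ C, c' ≠ c → (fun i => ψ (c' i)) ∈ P) ∧ (fun i => ψ (c i)) ∉ P

/-- The non-redundancy `NRD(P, n)`: the largest number of clauses in a non-redundant instance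
of `CSP(P)` on `n` variables. -/
noncomputable def NRD {r : ℕ} (P : Set (Fin r → Bool)) (n : ℕ) : ℕ :=
  sSup {m | ∃ C : Finset (Fin r → Fin n), NonRedundant P C ∧ C.card = m}

/-! ### The predicate -/

/-- The eight coordinates, as functions of three bits. -/
def pat (a b g : Bool) : Fin 8 → Bool :=
  ![b == g, !a && !g, !a && !b, !(!a && g), !b, a == b, !(a && g), !(a && !g)]

/-- The predicate: the tuples of the seven nonzero triples of bits. -/
def P : Set (Fin 8 → Bool) := {v | ∃ a b g : Bool, (a || b || g) = true ∧ v = pat a b g}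

/-- The tuple of the zero triple, all entries are `true`. -/
def t : Fin 8 → Bool := fun _ => true

lemma t_notMem : t ∉ P := by
  rintro ⟨a, b, g, h, h'⟩
  have h0 := congrFun h' 0
  have h1 := congrFun h' 1
  have h2 := congrFun h' 2
  revert h h0 h1 h2
  cases a <;> cases b <;> cases g <;> simp [t, pat]

lemma mem_P_iff (v : Fin 8 → Bool) : v ∈ P ↔ ∃ a b g : Bool, (a || b || g) = true ∧ v = pat a b g :=
  Iff.rfl

lemma facts {v : Fin 8 → Bool} (h : v ∈ P) :
    ¬ (v 0 = true ∧ v 1 = true) ∧ ¬ (v 0 = true ∧ v 2 = true) ∧ ¬ (v 1 = true ∧ v 2 = true) ∧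
    ¬ (v 2 = true ∧ v 3 = true) ∧ (v 2 = true → v 3 = false) ∧
    (v 3 = false → v 2 = false → v 0 = true) ∧ (v 1 = true → v 2 = false) ∧
    (v 1 = true → v 0 = false) := by
  obtain ⟨a, b, g, h, rfl⟩ := h
  revert h
  cases a <;> cases b <;> cases g <;> simp [pat]

/-! ### The main part of the upper bound -/

section main

variable {n : ℕ}

/-- The situation of the main part: each clause of `C` has an assignment that gives it the tuple
`t` and gives every other clause a tuple in `P`. -/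
def Good (C : Finset (Fin 8 → Fin n)) : Prop :=
  ∀ c ∈ C, ∃ ψ : Fin n → Bool,
    (∀ c' ∈ C, c' ≠ c → (fun i => ψ (c' i)) ∈ P) ∧ ∀ i, ψ (c i) = true

variable {C : Finset (Fin 8 → Fin n)}

lemma simple_pair (hC : Good C) (i j : Fin 8)
    (hij : ∀ v ∈ P, ¬ (v i = true ∧ v j = true)) {c c' : Fin 8 → Fin n} (hc : c ∈ C) (hc' : c' ∈ C)
    (h1 : c i = c' i) (h2 : c j = c' j) : c = c' := by
  by_contra hne
  obtain ⟨ψ, h, ht⟩ := hC c hc
  have := h c' hc' (fun h => hne h.symm)
  apply hij _ this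
  constructor
  · show ψ (c' i) = true
    rw [← h1]; exact ht i
  · show ψ (c' j) = true
    rw [← h2]; exact ht j

lemma s01 (hC : Good C) {c c' : Fin 8 → Fin n} (hc : c ∈ C) (hc' : c' ∈ C)
    (h1 : c 0 = c' 0) (h2 : c 1 = c' 1) : c = c' :=
  simple_pair hC 0 1 (fun _ h => (facts h).1) hc hc' h1 h2

lemma s02 (hC : Good C) {c c' : Fin 8 → Fin n} (hc : c ∈ C) (hc' : c' ∈ C)
    (h1 : c 0 = c' 0) (h2 : c 2 = c' 2) : c = c' :=
  simple_pair hC 0 2 (fun _ h => (facts h).2.1) hc hc' h1 h2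

lemma s12 (hC : Good C) {c c' : Fin 8 → Fin n} (hc : c ∈ C) (hc' : c' ∈ C)
    (h1 : c 1 = c' 1) (h2 : c 2 = c' 2) : c = c' :=
  simple_pair hC 1 2 (fun _ h => (facts h).2.2.1) hc hc' h1 h2

lemma s23 (hC : Good C) {c c' : Fin 8 → Fin n} (hc : c ∈ C) (hc' : c' ∈ C)
    (h1 : c 2 = c' 2) (h2 : c 3 = c' 3) : c = c' :=
  simple_pair hC 2 3 (fun _ h => (facts h).2.2.2.1) hc hc' h1 h2

/-- A triangle: `x` and `y` share coordinate `0`, `y` and `z` share coordinate `1`, `x` and `z`
share coordinate `2`. -/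
def IsTri (C : Finset (Fin 8 → Fin n))
    (τ : (Fin 8 → Fin n) × (Fin 8 → Fin n) × (Fin 8 → Fin n)) : Prop :=
  τ.1 ∈ C ∧ τ.2.1 ∈ C ∧ τ.2.2 ∈ C ∧ τ.1 0 = τ.2.1 0 ∧ τ.2.1 1 = τ.2.2 1 ∧ τ.1 2 = τ.2.2 2

/-- The key configuration is contradictory. -/
lemma key (hC : Good C) {x y z x' z' : Fin 8 → Fin n} (hx : x ∈ C) (hy : y ∈ C) (hz : z ∈ C)
    (hx' : x' ∈ C) (hz' : z' ∈ C)
    (hxy : x 0 = y 0) (hyz : y 1 = z 1) (hxz : x 2 = z 2)
    (hxz' : x' 2 = z' 2) (hF : x 3 = x' 3) (hB : z 1 = z' 1)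
    (nx : x ≠ z') (ny : y ≠ z') (nz : z ≠ z') (nx' : x' ≠ z') : False := by
  obtain ⟨ψ, h, ht⟩ := hC z' hz'
  have fx := facts (h x hx nx)
  have fy := facts (h y hy ny)
  have fz := facts (h z hz nz)
  have fx' := facts (h x' hx' nx')
  -- `x'` has coordinate `2` equal to `true`
  have e1 : ψ (x' 2) = true := by rw [hxz']; exact ht 2
  have e2 : ψ (x' 3) = false := fx'.2.2.2.2.1 e1
  have e3 : ψ (x 3) = false := by rw [hF]; exact e2
  have e4 : ψ (z 1) = true := by rw [hB]; exact ht 1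
  have e5 : ψ (z 2) = false := fz.2.2.2.2.2.2.1 e4
  have e6 : ψ (x 2) = false := by rw [hxz]; exact e5
  have e7 : ψ (x 0) = true := fx.2.2.2.2.2.1 e3 e6
  have e8 : ψ (y 1) = true := by rw [hyz]; exact e4
  have e9 : ψ (y 0) = false := fy.2.2.2.2.2.2.2 e8
  rw [hxy] at e7
  rw [e7] at e9
  exact absurd e9 (by decide)

lemma tri_eq_of_xy (hC : Good C) {x y z : Fin 8 → Fin n} (h : IsTri C (x, y, z)) (e : x = y) :
    x = z := by
  obtain ⟨hx, hy, hz, h0, h1, h2⟩ := h
  dsimp only at *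
  subst e
  exact s12 hC hx hz h1 h2

/-- Two distinct nontrivial triangles with the same `x 3` and `z 1` have distinct `z`, and
moreover `y = z'`. -/
lemma pair_tri (hC : Good C) {x y z x' y' z' : Fin 8 → Fin n} (h : IsTri C (x, y, z))
    (h' : IsTri C (x', y', z')) (_hn : x ≠ y) (hn' : x' ≠ y') (hF : x 3 = x' 3) (hB : z 1 = z' 1)
    (hne : (x, y, z) ≠ (x', y', z')) : z ≠ z' ∧ y = z' := by
  have H := h
  have H' := h'
  obtain ⟨hx, hy, hz, h0, h1, h2⟩ := h
  obtain ⟨hx', hy', hz', h0', h1', h2'⟩ := h'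
  dsimp only at *
  have nz : z ≠ z' := by
    intro e
    subst e
    have ex : x = x' := s23 hC hx hx' (h2.trans h2'.symm) hF
    subst ex
    have ey : y = y' := s01 hC hy hy' (h0.symm.trans h0') (h1.trans h1'.symm)
    subst ey
    exact hne rfl
  refine ⟨nz, ?_⟩
  by_contra ny
  have nx : x ≠ z' := by
    intro e
    subst e
    exact nz (s12 hC hz hx hB h2.symm)
  have nx' : x' ≠ z' := by
    intro e
    subst e
    -- `y'` and `x'` share coordinates `0` and `1`
    exact hn' (s01 hC hx' hy' h0' h1'.symm)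
  exact key hC hx hy hz hx' hz' h0 h1 h2 h2' hF hB nx ny nz nx'

open Classical in
/-- The set of all triangles. -/
noncomputable def tris (C : Finset (Fin 8 → Fin n)) :
    Finset ((Fin 8 → Fin n) × (Fin 8 → Fin n) × (Fin 8 → Fin n)) :=
  univ.filter (IsTri C)

open Classical in
lemma card_tris_le (hC : Good C) : (tris C).card ≤ 3 * n ^ 2 := by
  have hsplit : (tris C).card = ((tris C).filter (fun τ => τ.1 = τ.2.1)).card
      + ((tris C).filter (fun τ => ¬ τ.1 = τ.2.1)).card :=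
    (Finset.card_filter_add_card_filter_not (s := tris C) (fun τ => τ.1 = τ.2.1)).symm
  have h1 : ((tris C).filter (fun τ => τ.1 = τ.2.1)).card ≤ n ^ 2 := by
    have : ((tris C).filter (fun τ => τ.1 = τ.2.1)).card
        ≤ (univ : Finset (Fin n × Fin n)).card := by
      apply Finset.card_le_card_of_injOn (fun τ => (τ.1 0, τ.1 1)) (fun _ _ => mem_coe.2 (mem_univ _))
      rintro ⟨x, y, z⟩ h ⟨x', y', z'⟩ h' e
      simp only [coe_filter, Set.mem_ofPred_eq, tris, mem_filter, mem_univ, true_and] at h h'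
      simp only [Prod.mk.injEq] at e
      obtain ⟨H, e1⟩ := h
      obtain ⟨H', e1'⟩ := h'
      have e2 := tri_eq_of_xy hC H e1
      have e2' := tri_eq_of_xy hC H' e1'
      subst e1 e1' e2 e2'
      have := s01 hC H.1 H'.1 e.1 e.2
      dsimp only at this
      subst this
      rfl
    refine this.trans ?_
    simp [pow_two]
  have h2 : ((tris C).filter (fun τ => ¬ τ.1 = τ.2.1)).card ≤ 2 * n ^ 2 := by
    have := Finset.card_le_mul_card_image_of_maps_to
      (f := fun τ : (Fin 8 → Fin n) × (Fin 8 → Fin n) × (Fin 8 → Fin n) => (τ.1 3, τ.2.2 1))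
      (s := (tris C).filter (fun τ => ¬ τ.1 = τ.2.1)) (t := (univ : Finset (Fin n × Fin n)))
      (fun _ _ => mem_univ _) 2 ?_
    · simpa [pow_two] using this
    · rintro b -
      by_contra hcon
      push Not at hcon
      obtain ⟨τ₁, τ₂, τ₃, m1, m2, m3, n12, n13, n23⟩ := Finset.two_lt_card_iff.1 hcon
      obtain ⟨x₁, y₁, z₁⟩ := τ₁
      obtain ⟨x₂, y₂, z₂⟩ := τ₂
      obtain ⟨x₃, y₃, z₃⟩ := τ₃
      simp only [tris, mem_filter, mem_univ, true_and] at m1 m2 m3
      obtain ⟨⟨t1, q1⟩, r1⟩ := m1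
      obtain ⟨⟨t2, q2⟩, r2⟩ := m2
      obtain ⟨⟨t3, q3⟩, r3⟩ := m3
      have r12 := r1.trans r2.symm
      have r13 := r1.trans r3.symm
      have r23 := r2.trans r3.symm
      simp only [Prod.mk.injEq] at r12 r13 r23
      have a := pair_tri hC t1 t2 q1 q2 r12.1 r12.2 n12
      have b := pair_tri hC t1 t3 q1 q3 r13.1 r13.2 n13
      have c := pair_tri hC t2 t3 q2 q3 r23.1 r23.2 n23
      exact c.1 (a.2.symm.trans b.2)
  rw [hsplit]
  omega

open Classical in
/-- The triangle indices. -/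
noncomputable def idx (C : Finset (Fin 8 → Fin n)) : Finset (Fin n × Fin n × Fin n) :=
  C.image (fun c => (c 0, c 1, c 2))

open SimpleGraph SimpleGraph.TripartiteFromTriangles

lemma mem_idx {a b e : Fin n} : (a, b, e) ∈ idx C ↔ ∃ c ∈ C, c 0 = a ∧ c 1 = b ∧ c 2 = e := by
  classical
  simp [idx]

lemma explicitDisjoint (hC : Good C) : ExplicitDisjoint (idx C) where
  inj₀ := by
    intro a b e a' h h'
    obtain ⟨c, hc, rfl, rfl, rfl⟩ := mem_idx.1 h
    obtain ⟨c', hc', rfl, h1, h2⟩ := mem_idx.1 h'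
    rw [s12 hC hc hc' h1.symm h2.symm]
  inj₁ := by
    intro a b e b' h h'
    obtain ⟨c, hc, rfl, rfl, rfl⟩ := mem_idx.1 h
    obtain ⟨c', hc', h1, rfl, h2⟩ := mem_idx.1 h'
    rw [s02 hC hc hc' h1.symm h2.symm]
  inj₂ := by
    intro a b e e' h h'
    obtain ⟨c, hc, rfl, rfl, rfl⟩ := mem_idx.1 h
    obtain ⟨c', hc', h1, h2, rfl⟩ := mem_idx.1 h'
    rw [s01 hC hc hc' h1.symm h2.symm]

lemma card_idx (hC : Good C) : (idx C).card = C.card := by
  classical
  apply Finset.card_image_of_injOn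
  intro c hc c' hc' h
  simp only [Prod.mk.injEq] at h
  exact s01 hC hc hc' h.1 h.2.1

open Classical in
lemma card_clique_le (C : Finset (Fin 8 → Fin n)) :
    ((graph (idx C)).cliqueFinset 3).card ≤ (tris C).card := by
  apply Finset.card_le_card_of_surjOn
    (fun τ => ({Sum3.in₀ (τ.1 0), Sum3.in₁ (τ.2.1 1), Sum3.in₂ (τ.2.2 2)} :
      Finset (Fin n ⊕ Fin n ⊕ Fin n)))
  intro s hs
  rw [mem_coe, mem_cliqueFinset_iff, is3Clique_iff] at hs
  obtain ⟨x, y, z, hxy, hxz, hyz, rfl⟩ := hs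
  obtain ⟨a, b, e, habe, hab, hae, hbe⟩ := graph_triple hxy hxz hyz
  rw [Graph.in₀₁_iff] at hab
  rw [Graph.in₀₂_iff] at hae
  rw [Graph.in₁₂_iff] at hbe
  obtain ⟨_, h1⟩ := hab
  obtain ⟨_, h2⟩ := hae
  obtain ⟨_, h3⟩ := hbe
  obtain ⟨cy, hcy, y0, y1, -⟩ := mem_idx.1 h1
  obtain ⟨cx, hcx, x0, -, x2⟩ := mem_idx.1 h2
  obtain ⟨cz, hcz, -, z1, z2⟩ := mem_idx.1 h3
  refine ⟨(cx, cy, cz), ?_, ?_⟩
  · simp only [tris, coe_filter, mem_univ, true_and, Set.mem_ofPred_eq]
    exact ⟨hcx, hcy, hcz, by dsimp only; rw [x0, y0], by dsimp only; rw [y1, z1],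
      by dsimp only; rw [x2, z2]⟩
  · dsimp only
    rw [x0, y1, z2]
    exact habe

/-- The main part: a good family has `o(n ^ 2)` members. -/
lemma good_small (ε : ℝ) (hε : 0 < ε) : ∃ N : ℕ, ∀ n ≥ N, ∀ C : Finset (Fin 8 → Fin n),
    Good C → (C.card : ℝ) ≤ ε * n ^ 2 := by
  classical
  set δ := ε / 9 with hδ
  have hδ0 : 0 < δ := by positivity
  obtain ⟨N, hN⟩ := exists_nat_gt (3 / (27 * triangleRemovalBound δ))
  have hb := triangleRemovalBound_pos hδ0
  refine ⟨N, fun n hn C hC => ?_⟩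
  by_contra hcon
  push Not at hcon
  have := explicitDisjoint hC
  have hfar : (graph (idx C)).FarFromTriangleFree δ := by
    apply farFromTriangleFree (idx C)
    rw [card_idx hC]
    simp only [Fintype.card_fin]
    push_cast
    rw [hδ]
    nlinarith [hcon]
  have h1 := hfar.le_card_cliqueFinset
  have h2 : (((graph (idx C)).cliqueFinset 3).card : ℝ) ≤ 3 * (n : ℝ) ^ 2 := by
    exact_mod_cast (card_clique_le C).trans (card_tris_le hC)
  have h3 : (Fintype.card (Fin n ⊕ Fin n ⊕ Fin n) : ℝ) = 3 * n := by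
    simp only [Fintype.card_sum, Fintype.card_fin]
    push_cast
    ring
  rw [h3] at h1
  have hnpos : 0 < (n : ℝ) := by
    have h4 : (N : ℝ) ≤ n := by exact_mod_cast hn
    have h5 : 0 < 3 / (27 * triangleRemovalBound δ) := by positivity
    linarith
  have h6 : 3 / (27 * triangleRemovalBound δ) < n := by
    have h4 : (N : ℝ) ≤ n := by exact_mod_cast hn
    linarith
  rw [div_lt_iff₀ (by positivity)] at h6
  have h7 : triangleRemovalBound δ * (3 * (n : ℝ)) ^ 3 ≤ 3 * (n : ℝ) ^ 2 := by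
    refine le_trans ?_ h2
    convert h1
  have h8 : (n : ℝ) ^ 2 * (n * (27 * triangleRemovalBound δ)) ≤ (n : ℝ) ^ 2 * 3 := by
    nlinarith [h7]
  have h9 : n * (27 * triangleRemovalBound δ) ≤ 3 := le_of_mul_le_mul_left h8 (by positivity)
  linarith

end main

/-! ### The linear parts of the upper bound -/

/-- The integer value of a bit. -/
def b2 (x : Bool) : ℤ := if x then 1 else 0

/-- Families separated by an affine functional are linearly small. -/
lemma lin_bound {r n : ℕ} (K : Type) [Field K] (w : Fin r → ℤ) (b : ℤ)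
    (C : Finset (Fin r → Fin n))
    (hC : ∀ c ∈ C, ∃ ψ : Fin n → Bool,
      (∀ c' ∈ C, c' ≠ c → ((∑ i, w i * b2 (ψ (c' i)) + b : ℤ) : K) = 0) ∧
      ((∑ i, w i * b2 (ψ (c i)) + b : ℤ) : K) ≠ 0) : C.card ≤ n + 1 := by
  classical
  choose! ψ h1 h2 using hC
  let u : C → (Option (Fin n) → K) := fun c v =>
    match v with
    | none => (b : K)
    | some j => ∑ i, if c.1 i = j then (w i : K) else 0
  let φ : (Fin r → Fin n) → (Option (Fin n) → K) → K := fun c x =>
    x none + ∑ j, (b2 (ψ c j) : K) * x (some j)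
  have hφ : ∀ c : C, ∀ c' : Fin r → Fin n, φ c' (u c) = ((∑ i, w i * b2 (ψ c' (c.1 i)) + b : ℤ) : K) := by
    intro c c'
    simp only [φ, u]
    push_cast
    rw [add_comm]
    congr 1
    simp only [Finset.mul_sum]
    rw [Finset.sum_comm]
    apply Finset.sum_congr rfl
    intro i _
    simp [mul_comm]
  have hadd : ∀ (c : Fin r → Fin n) (g : C → K), φ c (∑ d, g d • u d) = ∑ d, g d * φ c (u d) := by
    intro c g
    simp only [φ, Finset.sum_apply, Pi.smul_apply, smul_eq_mul, mul_add, Finset.sum_add_distrib,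
      Finset.mul_sum]
    congr 1
    rw [Finset.sum_comm]
    apply Finset.sum_congr rfl
    intro d _
    apply Finset.sum_congr rfl
    intro j _
    ring
  have hli : LinearIndependent K u := by
    rw [Fintype.linearIndependent_iff]
    intro g hg c
    have e := hadd c.1 g
    rw [hg] at e
    have e0 : φ c.1 0 = 0 := by simp [φ]
    rw [e0, Finset.sum_eq_single c] at e
    · rw [hφ] at e
      rcases mul_eq_zero.1 e.symm with h | h
      · exact h
      · exact absurd h (h2 c.1 c.2)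
    · intro d _ hd
      rw [hφ, h1 c.1 c.2 d.1 d.2 (fun h => hd (Subtype.ext h)), mul_zero]
    · intro h
      exact absurd (Finset.mem_univ _) h
  have := hli.fintype_card_le_finrank
  simpa using this

/-- The three linear relations satisfied by `P`. -/
def L₁ : Fin 8 → ℤ := ![0, 1, 0, -1, 0, 0, -1, -1]
/-- The second relation. -/
def L₂ : Fin 8 → ℤ := ![0, 1, -2, -1, 1, 1, 0, 0]
/-- The third relation. -/
def L₃ : Fin 8 → ℤ := ![1, 1, 0, 0, 1, 0, 0, 1]

/-- Values of the three relations. -/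
def val (w : Fin 8 → ℤ) (b : ℤ) (v : Fin 8 → Bool) : ℤ := ∑ i, w i * b2 (v i) + b

lemma val_P {v : Fin 8 → Bool} (h : v ∈ P) :
    val L₁ 2 v = 0 ∧ val L₂ 0 v = 0 ∧ (val L₃ 0 v) % 2 = 0 := by
  obtain ⟨a, b, g, h, rfl⟩ := h
  revert h
  cases a <;> cases b <;> cases g <;> decide

lemma val_sep (v : Fin 8 → Bool) (h1 : val L₁ 2 v = 0) (h2 : val L₂ 0 v = 0)
    (h3 : (val L₃ 0 v) % 2 = 0) : v ∈ P ∨ ∀ i, v i = true := by
  have key : ∀ v : Fin 8 → Bool, (val L₁ 2 v = 0 ∧ val L₂ 0 v = 0 ∧ (val L₃ 0 v) % 2 = 0) →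
      ((∃ a b g : Bool, (a || b || g) = true ∧ v = pat a b g) ∨ ∀ i, v i = true) := by
    decide +kernel
  exact key v ⟨h1, h2, h3⟩

/-- The upper bound. -/
lemma upper (ε : ℝ) (hε : 0 < ε) : ∃ N : ℕ, ∀ n ≥ N, ∀ C : Finset (Fin 8 → Fin n),
    NonRedundant P C → (C.card : ℝ) ≤ ε * n ^ 2 + 3 * (n + 1) := by
  classical
  obtain ⟨N, hN⟩ := good_small ε hε
  refine ⟨N, fun n hn C hC => ?_⟩
  choose! ψ hψ1 hψ2 using hC
  let C1 := C.filter (fun c => val L₁ 2 (fun i => ψ c (c i)) ≠ 0)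
  let C2 := C.filter (fun c => val L₂ 0 (fun i => ψ c (c i)) ≠ 0)
  let C3 := C.filter (fun c => (val L₃ 0 (fun i => ψ c (c i))) % 2 ≠ 0)
  let C4 := C.filter (fun c => ∀ i, ψ c (c i) = true)
  have hcov : C ⊆ (C1 ∪ C2) ∪ (C3 ∪ C4) := by
    intro c hc
    simp only [C1, C2, C3, C4, mem_union, mem_filter, hc, true_and]
    by_contra hcon
    push Not at hcon
    obtain ⟨⟨h1, h2⟩, h3, h4⟩ := hcon
    rcases val_sep _ h1 h2 h3 with h | h
    · exact hψ2 c hc h
    · obtain ⟨i, hi⟩ := h4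
      exact hi (h i)
  have hc1 : C1.card ≤ n + 1 := by
    apply lin_bound ℚ L₁ 2
    intro c hc
    rw [mem_filter] at hc
    refine ⟨ψ c, fun c' hc' hne => ?_, ?_⟩
    · have := (val_P (hψ1 c hc.1 c' (mem_filter.1 hc').1 hne)).1
      simp only [val] at this
      rw [this]; simp
    · have := hc.2
      simp only [val] at this
      exact_mod_cast this
  have hc2 : C2.card ≤ n + 1 := by
    apply lin_bound ℚ L₂ 0
    intro c hc
    rw [mem_filter] at hc
    refine ⟨ψ c, fun c' hc' hne => ?_, ?_⟩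
    · have := (val_P (hψ1 c hc.1 c' (mem_filter.1 hc').1 hne)).2.1
      simp only [val] at this
      rw [this]; simp
    · have := hc.2
      simp only [val] at this
      exact_mod_cast this
  have hc3 : C3.card ≤ n + 1 := by
    have : Fact (Nat.Prime 2) := ⟨Nat.prime_two⟩
    apply lin_bound (ZMod 2) L₃ 0
    intro c hc
    rw [mem_filter] at hc
    refine ⟨ψ c, fun c' hc' hne => ?_, ?_⟩
    · have := (val_P (hψ1 c hc.1 c' (mem_filter.1 hc').1 hne)).2.2
      simp only [val] at this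
      rw [ZMod.intCast_zmod_eq_zero_iff_dvd]
      exact Int.dvd_of_emod_eq_zero this
    · have := hc.2
      simp only [val] at this
      intro h
      rw [ZMod.intCast_zmod_eq_zero_iff_dvd] at h
      exact this (Int.emod_eq_zero_of_dvd h)
  have hc4 : (C4.card : ℝ) ≤ ε * n ^ 2 := by
    apply hN n hn C4
    intro c hc
    rw [mem_filter] at hc
    exact ⟨ψ c, fun c' hc' hne => hψ1 c hc.1 c' (mem_filter.1 hc').1 hne, hc.2⟩
  have htot : C.card ≤ (C1.card + C2.card) + (C3.card + C4.card) :=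
    (card_le_card hcov).trans ((card_union_le _ _).trans
      (add_le_add (card_union_le _ _) (card_union_le _ _)))
  have htot' : (C.card : ℝ) ≤ (C1.card + C2.card) + (C3.card + C4.card) := by exact_mod_cast htot
  have h1' : (C1.card : ℝ) ≤ n + 1 := by exact_mod_cast hc1
  have h2' : (C2.card : ℝ) ≤ n + 1 := by exact_mod_cast hc2
  have h3' : (C3.card : ℝ) ≤ n + 1 := by exact_mod_cast hc3
  linarith

/-! ### The lower bound -/

/-- The pair of coordinates of a cube point that the `i`-th variable of its clause sees. -/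
def pr {q : ℕ} (i : Fin 8) (x : Fin q × Fin q × Fin q) : Fin q × Fin q :=
  if i = 0 then (x.2.1, x.2.2) else if i = 1 ∨ i = 3 ∨ i = 6 ∨ i = 7 then (x.1, x.2.2)
  else (x.1, x.2.1)

/-- The assignment belonging to the centre `o`. -/
def asg {q : ℕ} (o : Fin q × Fin q × Fin q) (i : Fin 8) (y : Fin q × Fin q) : Bool :=
  if i = 0 then pat false (decide (y.1 ≠ o.2.1)) (decide (y.2 ≠ o.2.2)) i
  else if i = 1 ∨ i = 3 ∨ i = 6 ∨ i = 7 then
    pat (decide (y.1 ≠ o.1)) false (decide (y.2 ≠ o.2.2)) i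
  else pat (decide (y.1 ≠ o.1)) (decide (y.2 ≠ o.2.1)) false i

lemma asg_pr {q : ℕ} (o x : Fin q × Fin q × Fin q) :
    (fun i => asg o i (pr i x)) =
      pat (decide (x.1 ≠ o.1)) (decide (x.2.1 ≠ o.2.1)) (decide (x.2.2 ≠ o.2.2)) := by
  obtain ⟨x1, x2, x3⟩ := x
  obtain ⟨o1, o2, o3⟩ := o
  funext i
  simp only [asg, pr]
  by_cases h1 : x1 = o1 <;> by_cases h2 : x2 = o2 <;> by_cases h3 : x3 = o3 <;>
    fin_cases i <;> simp [pat, h1, h2, h3]

lemma bddAbove_NRD {r : ℕ} (P : Set (Fin r → Bool)) (n : ℕ) :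
    BddAbove {m | ∃ C : Finset (Fin r → Fin n), NonRedundant P C ∧ C.card = m} := by
  classical
  refine ⟨Fintype.card (Fin r → Fin n), ?_⟩
  rintro m ⟨C, -, rfl⟩
  exact Finset.card_le_univ C

lemma le_NRD {r n : ℕ} {P : Set (Fin r → Bool)} {C : Finset (Fin r → Fin n)}
    (h : NonRedundant P C) : C.card ≤ NRD P n :=
  le_csSup (bddAbove_NRD P n) ⟨C, h, rfl⟩

lemma NRD_le {r n : ℕ} {P : Set (Fin r → Bool)} {B : ℝ}
    (h : ∀ C : Finset (Fin r → Fin n), NonRedundant P C → (C.card : ℝ) ≤ B) :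
    (NRD P n : ℝ) ≤ B := by
  classical
  have hne : {m | ∃ C : Finset (Fin r → Fin n), NonRedundant P C ∧ C.card = m}.Nonempty :=
    ⟨0, ∅, fun c hc => absurd hc (Finset.notMem_empty c), rfl⟩
  obtain ⟨C, hC, hm⟩ := Nat.sSup_mem hne (bddAbove_NRD P n)
  have := h C hC
  rw [hm] at this
  exact this

lemma lower {q n : ℕ} (h : 8 * q ^ 2 ≤ n) : q ^ 3 ≤ NRD P n := by
  classical
  have hcard : Fintype.card (Fin 8 × (Fin q × Fin q)) ≤ Fintype.card (Fin n) := by
    simp only [Fintype.card_prod, Fintype.card_fin]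
    calc 8 * (q * q) = 8 * q ^ 2 := by ring
      _ ≤ n := h
  obtain ⟨e⟩ := Function.Embedding.nonempty_of_card_le hcard
  let cl : (Fin q × Fin q × Fin q) → (Fin 8 → Fin n) := fun x i => e (i, pr i x)
  have hinj : Function.Injective cl := by
    intro x y hxy
    have h0 := congrFun hxy 0
    have h1 := congrFun hxy 1
    simp only [cl, e.injective.eq_iff, Prod.mk.injEq, true_and, pr] at h0 h1
    simp only [if_true, Prod.mk.injEq] at h0
    simp only [one_ne_zero, if_false, true_or, if_true, Prod.mk.injEq] at h1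
    exact Prod.ext h1.1 (Prod.ext h0.1 h0.2)
  let C : Finset (Fin 8 → Fin n) := Finset.univ.image cl
  have hC : C.card = q ^ 3 := by
    rw [Finset.card_image_of_injective _ hinj]
    simp only [Finset.card_univ, Fintype.card_prod, Fintype.card_fin]
    ring
  rw [← hC]
  apply le_NRD
  intro c hc
  obtain ⟨o, -, rfl⟩ := Finset.mem_image.1 hc
  let ψ : Fin n → Bool := Function.extend e (fun s => asg o s.1 s.2) (fun _ => false)
  have hψ : ∀ x, (fun i => ψ (cl x i)) =
      pat (decide (x.1 ≠ o.1)) (decide (x.2.1 ≠ o.2.1)) (decide (x.2.2 ≠ o.2.2)) := by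
    intro x
    rw [← asg_pr o x]
    funext i
    simp only [ψ, cl]
    rw [e.injective.extend_apply]
  refine ⟨ψ, ?_, ?_⟩
  · intro c' hc' hne
    obtain ⟨x, -, rfl⟩ := Finset.mem_image.1 hc'
    rw [hψ x]
    refine ⟨_, _, _, ?_, rfl⟩
    have hx : x ≠ o := fun h => hne (by rw [h])
    by_contra hcon
    simp only [ne_eq, decide_not, Bool.or_eq_true, Bool.not_eq_true', decide_eq_false_iff_not,
      not_or, not_not] at hcon
    exact hx (Prod.ext hcon.1.1 (Prod.ext hcon.1.2 hcon.2))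
  · rw [hψ o]
    have : pat (decide (o.1 ≠ o.1)) (decide (o.2.1 ≠ o.2.1)) (decide (o.2.2 ≠ o.2.2)) = t := by
      simp only [ne_eq, not_true_eq_false, decide_false]
      decide
    rw [this]
    exact t_notMem

/-! ### The result -/

lemma three_halves {n : ℕ} (hn : 32 ≤ n) : (n : ℝ) ^ (3 / 2 : ℝ) ≤ 182 * NRD P n := by
  set q := Nat.sqrt (n / 8) with hq
  have h1 : q ^ 2 ≤ n / 8 := Nat.sqrt_le' _
  have h2 : n / 8 < (q + 1) ^ 2 := Nat.lt_succ_sqrt' _
  have h3 : 8 * q ^ 2 ≤ n := by omega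
  have h4 := lower h3
  have h5 : n < 8 * (q + 1) ^ 2 := by omega
  have hq2 : 2 ≤ q := by
    rw [hq, Nat.le_sqrt']
    omega
  have hqr : (2 : ℝ) ≤ q := by exact_mod_cast hq2
  have h6 : (n : ℝ) ≤ 8 * (q + 1) ^ 2 := by exact_mod_cast h5.le
  have h7 : (n : ℝ) ≤ 32 * (q : ℝ) ^ 2 := by nlinarith
  have h8 : (n : ℝ) ^ (3 / 2 : ℝ) ≤ (32 * (q : ℝ) ^ 2) ^ (3 / 2 : ℝ) :=
    Real.rpow_le_rpow (by positivity) h7 (by norm_num)
  have h9 : (32 * (q : ℝ) ^ 2) ^ (3 / 2 : ℝ) ≤ 182 * (q : ℝ) ^ 3 := by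
    have e1 : (32 * (q : ℝ) ^ 2) ^ (3 / 2 : ℝ) = Real.sqrt ((32 * (q : ℝ) ^ 2) ^ 3) := by
      have hX : (0 : ℝ) ≤ 32 * (q : ℝ) ^ 2 := by positivity
      generalize (32 * (q : ℝ) ^ 2) = X at hX ⊢
      rw [Real.sqrt_eq_rpow, ← Real.rpow_natCast X 3, ← Real.rpow_mul hX]
      norm_num
    rw [e1]
    apply Real.sqrt_le_iff.2
    constructor
    · positivity
    · have : (0 : ℝ) ≤ (q : ℝ) ^ 6 := by positivity
      nlinarith
  have h10 : ((q : ℝ)) ^ 3 ≤ NRD P n := by exact_mod_cast h4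
  linarith

open Filter Topology

/-- There is a Boolean predicate (of arity 8) whose non-redundancy is `ω(n)` and `o(n ^ 2)`; in
fact it is at least a constant times `n ^ (3/2)`. -/
theorem result : ∃ (r : ℕ) (P : Set (Fin r → Bool)),
    Tendsto (fun n : ℕ => (NRD P n : ℝ) / n) atTop atTop ∧
    Tendsto (fun n : ℕ => (NRD P n : ℝ) / (n : ℝ) ^ 2) atTop (𝓝 0) ∧
    ∃ c : ℝ, 0 < c ∧ ∀ᶠ n : ℕ in atTop, c * (n : ℝ) ^ (3 / 2 : ℝ) ≤ NRD P n := by
  refine ⟨8, P, ?_, ?_, 1 / 182, by norm_num, ?_⟩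
  · have h1 : Tendsto (fun n : ℕ => (n : ℝ) ^ (1 / 2 : ℝ) / 182) atTop atTop :=
      ((tendsto_rpow_atTop (by norm_num)).comp tendsto_natCast_atTop_atTop).atTop_div_const
        (by norm_num)
    refine tendsto_atTop_mono' atTop ?_ h1
    filter_upwards [eventually_ge_atTop 32] with n hn
    have hpos : (0 : ℝ) < n := by
      have : (32 : ℝ) ≤ n := by exact_mod_cast hn
      linarith
    rw [div_le_div_iff₀ (by norm_num) hpos]
    have h2 := three_halves hn
    have h3 : (n : ℝ) ^ (1 / 2 : ℝ) * n = (n : ℝ) ^ (3 / 2 : ℝ) := by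
      nth_rw 2 [← Real.rpow_one (n : ℝ)]
      rw [← Real.rpow_add hpos]
      norm_num
    rw [h3]
    linarith
  · rw [Metric.tendsto_atTop]
    intro ε hε
    obtain ⟨N, hN⟩ := upper (ε / 4) (by positivity)
    obtain ⟨M, hM⟩ := exists_nat_gt (12 / ε)
    refine ⟨max N (max M 1), fun n hn => ?_⟩
    have hn1 : N ≤ n := (le_max_left _ _).trans hn
    have hn2 : M ≤ n := ((le_max_left _ _).trans (le_max_right _ _)).trans hn
    have hn3 : 1 ≤ n := ((le_max_right _ _).trans (le_max_right _ _)).trans hn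
    have hn3' : (1 : ℝ) ≤ n := by exact_mod_cast hn3
    have hn2' : 12 / ε < n := lt_of_lt_of_le hM (by exact_mod_cast hn2)
    rw [div_lt_iff₀ hε] at hn2'
    have hb : (NRD P n : ℝ) ≤ ε / 4 * n ^ 2 + 3 * (n + 1) := NRD_le (hN n hn1)
    rw [Real.dist_eq, sub_zero, abs_of_nonneg (by positivity), div_lt_iff₀ (by positivity)]
    have h6 : 3 * ((n : ℝ) + 1) ≤ 6 * n := by linarith
    have h7 : 6 * (n : ℝ) ≤ (ε / 2) * (n : ℝ) ^ 2 := by nlinarith
    have h8 : (0 : ℝ) < ε * (n : ℝ) ^ 2 := by positivity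
    linarith
  · filter_upwards [eventually_ge_atTop 32] with n hn
    have := three_halves hn
    linarith

end Pool.Agent.Results.MP_7c0615_lc.BetweenLinearAndQuadratic
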